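import Pool.Agent.U607.OsBlocks

set_option autoImplicit false

/-!
# Record prime gaps around smooth functions of numbers with given Ostrowski digits

Let `a 0, a 1, …` be the partial quotients of a number with bounded partial quotients and
`Q 0 = 1`, `Q 1 = a 0`, `Q (k + 2) = a (k + 1) Q (k + 1) + Q k` the denominators of its convergents.
Every natural number has a greedy expansion `n = Σ d_k Q k` (the Ostrowski expansion; `a k = 1` for
all `k` gives the Zeckendorf expansion). A function `S` is additive if `S n = Σ S (d_k Q k)`; the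
values at the `d Q k`, `1 ≤ d ≤ a k`, may be prescribed arbitrarily in a finite abelian group.
-/

namespace Pool.Agent.Results.MP_2033ac_nt.OstrowskiSmoothFunctions

open Filter Finset

/-- The denominators `Q 0 = 1`, `Q 1 = a 0`, `Q (k + 2) = a (k + 1) Q (k + 1) + Q k`. -/
def Q (a : ℕ → ℕ) : ℕ → ℕ
  | 0 => 1
  | 1 => a 0
  | (k + 2) => a (k + 1) * Q a (k + 1) + Q a k

/-- `S` is additive with respect to the greedy expansions in the numbers `Q k`. -/
def Additive {G : Type} [AddCommGroup G] (a : ℕ → ℕ) (S : ℕ → G) : Prop :=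
  ∀ k m d : ℕ, m < Q a k → d * Q a k + m < Q a (k + 1) → S (d * Q a k + m) = S (d * Q a k) + S m

/-- The elements `S (d Q j) - d S (Q j)`, `2 ≤ d ≤ a j`, and
`S (Q (j + 2)) - S (a (j + 1) Q (j + 1)) - S (Q j)` for `k ≤ j < k + w`. -/
def defects {G : Type} [AddCommGroup G] (a : ℕ → ℕ) (S : ℕ → G) (k w : ℕ) : Set G :=
  {g | (∃ j d : ℕ, k ≤ j ∧ j < k + w ∧ 2 ≤ d ∧ d ≤ a j ∧ g = S (d * Q a j) - d • S (Q a j)) ∨
    ∃ j : ℕ, k ≤ j ∧ j < k + w ∧ g = S (Q a (j + 2)) - S (a (j + 1) * Q a (j + 1)) - S (Q a j)}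

/-- `F x = log x (log₂ x)² log₄ x / (log₃ x)²` (iterated natural logarithms). -/
noncomputable def F (x : ℝ) : ℝ :=
  Real.log x * (Real.log (Real.log x)) ^ 2 * Real.log (Real.log (Real.log (Real.log x))) /
    (Real.log (Real.log (Real.log x))) ^ 2

theorem Q_eq (a : ℕ → ℕ) : ∀ k, Q a k = Pool.Agent.U607.OS.Q a k
  | 0 => rfl
  | 1 => rfl
  | (k + 2) => by
    show a (k + 1) * Q a (k + 1) + Q a k =
      a (k + 1) * Pool.Agent.U607.OS.Q a (k + 1) + Pool.Agent.U607.OS.Q a k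
    rw [Q_eq a (k + 1), Q_eq a k]

open Classical in
/-- **Theorem.** Let `1 ≤ a k ≤ A` for all `k`, let `S` be additive, with values in a finite abelian
group `G`, and suppose that for some `w` and all `k` the defects of `S` in the positions
`k, …, k + w - 1` generate `G`.  Let `f₁, …, f_r`, `r ≥ 1`, be real functions, twice differentiable
near infinity, with `|f_j''(t)| = t ^ (c_j - 2 + o(1))` for distinct numbers `1 ≤ c_j < 2` and with
`f_j(t) ≥ t ^ τ` for large `t`, `τ > 0` (for instance `α_j t ^ (c_j)`, `α_j > 0`, `1 < c_j < 2`, or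
`t log t`).  For every `ε > 0` there is `κ > 0` such that for all large `X` and all `g ∈ G` at least
`X ^ (1 - ε)` integers `n ≤ X` satisfy `S n = g` and have no prime at distance at most `κ F(X)` from
any of the numbers `f₁(n), …, f_r(n)`. -/
theorem result {G : Type} [AddCommGroup G] [Finite G] (a : ℕ → ℕ) (A : ℕ)
    (ha : ∀ k, 1 ≤ a k ∧ a k ≤ A) (S : ℕ → G) (hS : Additive a S) (w : ℕ)
    (hw : ∀ k, AddSubgroup.closure (defects a S k w) = ⊤)
    (r : ℕ) (hr : 1 ≤ r) (c : Fin r → ℝ) (hc1 : ∀ j, 1 ≤ c j) (hc2 : ∀ j, c j < 2)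
    (hc : Function.Injective c) (f : Fin r → ℝ → ℝ)
    (hf1 : ∀ j, ∀ᶠ t : ℝ in atTop, DifferentiableAt ℝ (f j) t ∧ DifferentiableAt ℝ (deriv (f j)) t)
    (hf2 : ∀ j, ∀ σ : ℝ, 0 < σ → ∀ᶠ t : ℝ in atTop,
      t ^ (c j - 2 - σ) ≤ |deriv (deriv (f j)) t| ∧ |deriv (deriv (f j)) t| ≤ t ^ (c j - 2 + σ))
    (τ : ℝ) (hτ : 0 < τ) (hf3 : ∀ j, ∀ᶠ t : ℝ in atTop, t ^ τ ≤ f j t)
    (ε : ℝ) (hε : 0 < ε) :
    ∃ κ : ℝ, 0 < κ ∧ ∀ᶠ X : ℝ in atTop, ∀ g : G, X ^ (1 - ε) ≤
      (((range (⌊X⌋₊ + 1)).filter (fun n => S n = g ∧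
        ∀ j, ∀ q : ℕ, q.Prime → κ * F X < |(q : ℝ) - f j (n : ℝ)|)).card : ℝ) := by
  have : Fintype G := Fintype.ofFinite G
  have hQ : Q a = Pool.Agent.U607.OS.Q a := funext (Q_eq a)
  have hS' : Pool.Agent.U607.OS.Add a S := by
    intro k m d h1 h2
    rw [← hQ] at h1 h2 ⊢
    exact hS k m d h1 h2
  have hw' : ∀ k, AddSubgroup.closure (Pool.Agent.U607.OS.gens a S k w) = ⊤ := by
    intro k
    rw [← hw k]
    congr 1
    unfold Pool.Agent.U607.OS.gens defects
    rw [hQ]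
  obtain ⟨κ, hκ, h⟩ := Pool.Agent.U602.AB.family_smooth S
    (Pool.Agent.U607.OS.blocks a (fun k => (ha k).1) A (fun k => (ha k).2) S hS' w hw') r hr c hc1 hc2
    hc f (fun j => deriv (f j)) (fun j => deriv (deriv (f j)))
    (fun j => (hf1 j).mono fun t ht => ht.1.hasDerivAt)
    (fun j => (hf1 j).mono fun t ht => ht.2.hasDerivAt) hf2 τ hτ hf3 ε hε
  refine ⟨κ, hκ, ?_⟩
  filter_upwards [h] with X hX g
  refine (hX g).trans (le_of_eq ?_)
  congr 2

end Pool.Agent.Results.MP_2033ac_nt.OstrowskiSmoothFunctions
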